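import Pool.Agent.Lib.MP_7bc51d_an_full.Iff62

set_option autoImplicit false

namespace Pool.Agent.Results.MP_7bc51d_an.IrrationalPolygons

open MeasureTheory
open scoped ComplexConjugate

/-- The unit vector of angle `θ`. -/
noncomputable def dir (θ : ℝ) : ℂ := Complex.exp ((θ : ℂ) * Complex.I)

/-- The open billiard table: the interior of the convex hull of the vertices. -/
def Table {n : ℕ} (v : Fin n → ℂ) : Set ℂ := interior (convexHull ℝ (Set.range v))

/-- `q` is reached from `p = (position, angle of the velocity)` by moving along a segment inside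
the open table. -/
def Straight {n : ℕ} (v : Fin n → ℂ) (p q : ℂ × ℝ) : Prop :=
  q.2 = p.2 ∧ ∃ s : ℝ, 0 ≤ s ∧ q.1 = p.1 + (s : ℂ) * dir p.2 ∧
    ∀ r ∈ Set.Icc 0 s, p.1 + (r : ℂ) * dir p.2 ∈ Table v

/-- `q` is reached from `p` by one elastic reflection: the motion from `p` stays in the open table
for the times less than `t`, at time `t` it is at a boundary point of the table in the open segment
from `v i` to `v j` (so not at a vertex), the new velocity is the mirror image of the old one in
the line through `v i` and `v j`, and after the reflection the motion stays in the open table up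
to `q`. -/
def Bounce {n : ℕ} (v : Fin n → ℂ) (p q : ℂ × ℝ) : Prop :=
  ∃ (i j : Fin n) (t s : ℝ), i ≠ j ∧ 0 < t ∧ 0 < s ∧
    (∀ r ∈ Set.Ico 0 t, p.1 + (r : ℂ) * dir p.2 ∈ Table v) ∧
    p.1 + (t : ℂ) * dir p.2 ∉ Table v ∧
    p.1 + (t : ℂ) * dir p.2 ∈ openSegment ℝ (v i) (v j) ∧
    dir q.2 = (v j - v i) / conj (v j - v i) * conj (dir p.2) ∧
    q.1 = p.1 + (t : ℂ) * dir p.2 + (s : ℂ) * dir q.2 ∧
    ∀ r ∈ Set.Ioc 0 s, p.1 + (t : ℂ) * dir p.2 + (r : ℂ) * dir q.2 ∈ Table v

/-- Invariance of a set of pairs (position, angle) under the billiard flow: for almost every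
`p`, the set contains `p` if and only if it contains `q`, for every `q` reached from `p` by
straight motion or by one reflection. -/
def FlowInvariant {n : ℕ} (v : Fin n → ℂ) (A : Set (ℂ × ℝ)) : Prop :=
  ∀ᵐ p : ℂ × ℝ, p.1 ∈ Table v → ∀ q : ℂ × ℝ, Straight v p q ∨ Bounce v p q → (p ∈ A ↔ q ∈ A)

/-- The phase space `P × S¹`: positions in the open table, angles in `(-π, π]`. -/
def Phase {n : ℕ} (v : Fin n → ℂ) : Set (ℂ × ℝ) := Table v ×ˢ Set.Ioc (-Real.pi) Real.pi

/-- The billiard flow is ergodic: every measurable set of pairs (position, angle), `2π`-periodic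
in the angle and invariant under the billiard flow, is null or conull in the phase space. -/
def Ergodic {n : ℕ} (v : Fin n → ℂ) : Prop :=
  ∀ A : Set (ℂ × ℝ), MeasurableSet A →
    (∀ (x : ℂ) (θ : ℝ), (x, θ) ∈ A ↔ (x, θ + 2 * Real.pi) ∈ A) → FlowInvariant v A →
    volume (Phase v ∩ A) = 0 ∨ volume (Phase v \ A) = 0

/-- Two sides (segments between vertices contained in the boundary) make an angle which is not a
rational multiple of `π`. -/
def IrrationalSides {n : ℕ} (v : Fin n → ℂ) : Prop :=
  ∃ i j k l : Fin n, i ≠ j ∧ k ≠ l ∧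
    segment ℝ (v i) (v j) ⊆ frontier (convexHull ℝ (Set.range v)) ∧
    segment ℝ (v k) (v l) ⊆ frontier (convexHull ℝ (Set.range v)) ∧
    ∀ q : ℚ, Complex.arg ((v j - v i) / (v l - v k)) ≠ (q : ℝ) * Real.pi

/-- The billiard flow in a convex polygon is ergodic on `P × S¹` if and only if two of its sides
make an angle which is not a rational multiple of `π`, and almost every convex polygon has two
such sides. -/
theorem result :
    ∀ n : ℕ, 3 ≤ n →
      (∀ v : Fin n → ℂ, ConvexIndependent ℝ v → (Ergodic v ↔ IrrationalSides v)) ∧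
      ∀ᵐ v ∂(volume : Measure (Fin n → ℂ)), ConvexIndependent ℝ v → IrrationalSides v := by
  intro n hn
  exact ⟨fun v hv => Pool.Agent.Lib.BilF.Ang62.ergodic_iff hn hv,
    Pool.Agent.Lib.BilF.Ang62.ae_irrationalSides n hn⟩

end Pool.Agent.Results.MP_7bc51d_an.IrrationalPolygons
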